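import Pool.Agent.H43.BZ.Stm4

/-!
# The Gronwall bound at velocity scale `R`
-/

set_option autoImplicit false

open MeasureTheory Metric Set Filter Topology
open scoped RealInnerProductSpace ENNReal

namespace Pool.Agent.H43.BZ

/-- **SFIN**: `FINn` applied to the rescaled solution `scal γ R f`. -/
theorem SFIN (hf : S_FINn) (hs : S_SCAL) (hl : S_LAMS) : S_SFIN := by
  intro d hd s γ K h0 h1 hγ hγs hK
  obtain ⟨C, hC, hF⟩ := hf d hd s γ K h0 h1 hγ hγs hK
  refine ⟨C, hC, ?_⟩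
  intro b hb T f hT hsol R hR
  have hRT : 0 < R * T := mul_pos hR hT
  have hR0 : R ≠ 0 := hR.ne'
  obtain ⟨hc, hnn, hN⟩ := hF b hb (R * T) (scal γ R f) hRT (hs d hd γ b hb.meas T R f hT hR hsol)
  have hL : ∀ t : ℝ, LamR γ s R f t = R * Lam γ s (scal γ R f) (R * t) := by
    intro t
    rw [hl d hd γ s R f (R * t) hR, mul_div_cancel_left₀ t hR0, ← mul_assoc, mul_inv_cancel₀ hR0,
      one_mul]
  have hmaps : ∀ t ∈ Ico 0 T, R * t ∈ Ico 0 (R * T) := fun t ht =>
    ⟨mul_nonneg hR.le ht.1, mul_lt_mul_of_pos_left ht.2 hR⟩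
  refine ⟨?_, ?_, ?_⟩
  · have h2 : ContinuousOn (fun t : ℝ => R * Lam γ s (scal γ R f) (R * t)) (Ico 0 T) :=
      (hc.comp (continuous_const.mul continuous_id).continuousOn hmaps).const_mul R |>.congr
        fun t _ => rfl
    exact h2.congr fun t _ => hL t
  · intro t ht
    rw [hL t]
    exact mul_nonneg hR.le (hnn (R * t) (hmaps t ht))
  · intro N hN0 t ht x v
    have hc0 : 0 < R ^ ((d : ℝ) + γ - 1) := Real.rpow_pos_of_pos hR _
    have h3 : ∀ x v, scal γ R f 0 x v ≤ (R ^ ((d : ℝ) + γ - 1) * N) * P d v := by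
      intro x v
      have h4 := hN0 x (R • v)
      rw [smul_smul, inv_mul_cancel₀ hR0, one_smul] at h4
      have h5 : scal γ R f 0 x v = R ^ ((d : ℝ) + γ - 1) * f 0 x (R • v) := by
        unfold scal
        rw [zero_div]
      rw [h5, mul_assoc]
      exact mul_le_mul_of_nonneg_left h4 hc0.le
    have h6 := hN _ h3 (R * t) (hmaps t ht) x (R⁻¹ • v)
    have h7 : scal γ R f (R * t) x (R⁻¹ • v) = R ^ ((d : ℝ) + γ - 1) * f t x v := by
      unfold scal
      rw [mul_div_cancel_left₀ t hR0, smul_smul, mul_inv_cancel₀ hR0, one_smul]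
    have h8 : (∫ τ in (0 : ℝ)..(R * t), Lam γ s (scal γ R f) τ) =
        ∫ τ in (0 : ℝ)..t, LamR γ s R f τ := by
      have h9 := intervalIntegral.mul_integral_comp_mul_left (a := (0 : ℝ)) (b := t)
        (f := Lam γ s (scal γ R f)) R
      rw [mul_zero] at h9
      rw [← h9, ← intervalIntegral.integral_const_mul]
      exact intervalIntegral.integral_congr fun τ _ => (hL τ).symm
    rw [h7, h8] at h6
    have h10 : R ^ ((d : ℝ) + γ - 1) * f t x v ≤ R ^ ((d : ℝ) + γ - 1) *
        (N * Real.exp (C * ∫ τ in (0 : ℝ)..t, LamR γ s R f τ) * P d (R⁻¹ • v)) := by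
      refine h6.trans (le_of_eq ?_)
      ring
    exact le_of_mul_le_mul_left h10 hc0

end Pool.Agent.H43.BZ
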